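import Pool.Agent.Helper60.FV.OA1

/-!
# Codes of the group algebra, and explicit unitaries (block OA2)
-/

open Filter

namespace Pool.Agent.Helper89.FV

open Pool.Agent.Helper96.Fc

/-- The element of the algebra coded by a list of monomials. -/
noncomputable def dlist (l : List (List (ℕ × ℕ) × ℤ × ℤ × ℕ)) : Alg := (l.map mono).sum

theorem dec_eq (n : ℕ) :
    dec n = dlist (Denumerable.ofNat (List (List (ℕ × ℕ) × ℤ × ℤ × ℕ)) n) := rfl

theorem exists_dec (l : List (List (ℕ × ℕ) × ℤ × ℤ × ℕ)) : ∃ n, dec n = dlist l :=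
  ⟨Encodable.encode l, by rw [dec_eq, Denumerable.ofNat_encode]⟩

theorem dlist_nil : dlist [] = 0 := rfl

theorem dlist_cons (t : List (ℕ × ℕ) × ℤ × ℤ × ℕ) (l : List (List (ℕ × ℕ) × ℤ × ℤ × ℕ)) :
    dlist (t :: l) = mono t + dlist l := by
  simp [dlist]

theorem dlist_append (l l' : List (List (ℕ × ℕ) × ℤ × ℤ × ℕ)) :
    dlist (l ++ l') = dlist l + dlist l' := by
  simp [dlist]

theorem perm_append (l l' : List (ℕ × ℕ)) : perm (l ++ l') = perm l * perm l' := by
  simp [perm]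

theorem perm_reverse (l : List (ℕ × ℕ)) : perm l.reverse = (perm l)⁻¹ := by
  induction l with
  | nil => simp [perm]
  | cons a l ih =>
    rw [List.reverse_cons, perm_append, ih]
    simp [perm]

/-- The product of two monomials. -/
def mulM (t t' : List (ℕ × ℕ) × ℤ × ℤ × ℕ) : List (ℕ × ℕ) × ℤ × ℤ × ℕ :=
  (t.1 ++ t'.1, t.2.1 * t'.2.1 - t.2.2.1 * t'.2.2.1, t.2.1 * t'.2.2.1 + t.2.2.1 * t'.2.1,
    t.2.2.2 * t'.2.2.2 + t.2.2.2 + t'.2.2.2)

theorem mono_mulM (t t' : List (ℕ × ℕ) × ℤ × ℤ × ℕ) : mono (mulM t t') = mono t * mono t' := by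
  rw [mono, mono, mono, MonoidAlgebra.single_mul_single, mulM, perm_append]
  congr 1
  have h3 : (((t.2.2.2 * t'.2.2.2 + t.2.2.2 + t'.2.2.2 : ℕ) : ℂ) + 1) =
      ((t.2.2.2 : ℂ) + 1) * ((t'.2.2.2 : ℂ) + 1) := by push_cast; ring
  simp only
  rw [h3, div_mul_div_comm]
  congr 1
  push_cast
  linear_combination (-(t.2.2.1 : ℂ) * (t'.2.2.1 : ℂ)) * Complex.I_sq

theorem mono_mul_dlist (t : List (ℕ × ℕ) × ℤ × ℤ × ℕ) (l : List (List (ℕ × ℕ) × ℤ × ℤ × ℕ)) :
    dlist (l.map (mulM t)) = mono t * dlist l := by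
  induction l with
  | nil => simp [dlist_nil]
  | cons a l ih => rw [List.map_cons, dlist_cons, dlist_cons, ih, mono_mulM, mul_add]

theorem exists_mulc : ∃ f : ℕ → ℕ → ℕ, ∀ k l, dec (f k l) = dec k * dec l := by
  have h : ∀ L L' : List (List (ℕ × ℕ) × ℤ × ℤ × ℕ), ∃ L'', dlist L'' = dlist L * dlist L' := by
    intro L L'
    induction L with
    | nil => exact ⟨[], by simp [dlist_nil]⟩
    | cons a L ih =>
      obtain ⟨L'', hL⟩ := ih
      exact ⟨L'.map (mulM a) ++ L'', by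
        rw [dlist_append, mono_mul_dlist, hL, dlist_cons, add_mul]⟩
  have h2 : ∀ k l, ∃ m, dec m = dec k * dec l := by
    intro k l
    obtain ⟨L, hL⟩ := h (Denumerable.ofNat _ k) (Denumerable.ofNat _ l)
    obtain ⟨m, hm⟩ := exists_dec L
    exact ⟨m, by rw [hm, hL, dec_eq, dec_eq]⟩
  choose f hf using h2
  exact ⟨f, hf⟩

/-- The adjoint of a monomial. -/
def adjM (t : List (ℕ × ℕ) × ℤ × ℤ × ℕ) : List (ℕ × ℕ) × ℤ × ℤ × ℕ :=
  (t.1.reverse, t.2.1, -t.2.2.1, t.2.2.2)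

theorem mono_adjM (t : List (ℕ × ℕ) × ℤ × ℤ × ℕ) : mono (adjM t) = adj (mono t) := by
  rw [mono, mono, adj_single, adjM, perm_reverse]
  congr 1
  simp

theorem exists_adjc : ∃ f : ℕ → ℕ, ∀ k, dec (f k) = adj (dec k) := by
  have h : ∀ L : List (List (ℕ × ℕ) × ℤ × ℤ × ℕ), dlist (L.map adjM) = adj (dlist L) := by
    intro L
    induction L with
    | nil => simp [dlist_nil, adj_zero]
    | cons a L ih => rw [List.map_cons, dlist_cons, dlist_cons, ih, mono_adjM, adj_add]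
  have h2 : ∀ k, ∃ m, dec m = adj (dec k) := by
    intro k
    obtain ⟨m, hm⟩ := exists_dec
      ((Denumerable.ofNat (List (List (ℕ × ℕ) × ℤ × ℤ × ℕ)) k).map adjM)
    exact ⟨m, by rw [hm, h, dec_eq]⟩
  choose f hf using h2
  exact ⟨f, hf⟩

theorem exists_onec : ∃ k, dec k = 1 := by
  obtain ⟨m, hm⟩ := exists_dec [([], 1, 0, 0)]
  refine ⟨m, ?_⟩
  rw [hm, dlist_cons, dlist_nil, mono]
  simp [perm, MonoidAlgebra.one_def]

/-! ### The unitaries -/

theorem IsU.mul {a b : Alg} (ha : IsU a) (hb : IsU b) : IsU (a * b) := by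
  refine ⟨?_, ?_⟩
  · rw [adj_mul, mul_assoc, ← mul_assoc (adj a), ha.1, one_mul, hb.1]
  · rw [adj_mul, mul_assoc, ← mul_assoc b, hb.2, one_mul, ha.2]

theorem IsU.adj' {a : Alg} (ha : IsU a) : IsU (adj a) := by
  refine ⟨?_, ?_⟩
  · rw [adj_adj]; exact ha.2
  · rw [adj_adj]; exact ha.1

/-- The group element `g` in the algebra. -/
noncomputable def gel (g : Equiv.Perm ℕ) : Alg := MonoidAlgebra.single g 1

theorem gel_mul (g h : Equiv.Perm ℕ) : gel g * gel h = gel (g * h) := by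
  rw [gel, gel, gel, MonoidAlgebra.single_mul_single, one_mul]

theorem gel_one : gel 1 = 1 := rfl

theorem adj_gel (g : Equiv.Perm ℕ) : adj (gel g) = gel g⁻¹ := by
  rw [gel, adj_single, map_one, gel]

theorem isU_gel (g : Equiv.Perm ℕ) : IsU (gel g) := by
  refine ⟨?_, ?_⟩
  · rw [adj_gel, gel_mul, inv_mul_cancel, gel_one]
  · rw [adj_gel, gel_mul, mul_inv_cancel, gel_one]

/-- `p + q g` -/
noncomputable def lin (p q : ℂ) (g : Equiv.Perm ℕ) : Alg :=
  MonoidAlgebra.single 1 p + MonoidAlgebra.single g q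

theorem conj_lin (p q : ℂ) (g h : Equiv.Perm ℕ) :
    gel h * lin p q g * adj (gel h) = lin p q (h * g * h⁻¹) := by
  rw [adj_gel, gel, gel, lin, lin, mul_add, add_mul]
  simp only [MonoidAlgebra.single_mul_single, one_mul, mul_one, mul_inv_cancel]

theorem isU_lin {p r : ℝ} (h : p ^ 2 + r ^ 2 = 1) {g : Equiv.Perm ℕ} (hg : g * g = 1) :
    IsU (lin p (Complex.I * r) g) := by
  have hg' : g⁻¹ = g := inv_eq_of_mul_eq_one_left hg
  have h1 : (p : ℂ) ^ 2 + (r : ℂ) ^ 2 = 1 := by exact_mod_cast h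
  have e : adj (lin p (Complex.I * r) g) = lin p (-(Complex.I * r)) g := by
    rw [lin, adj_add, adj_single, adj_single, lin, hg', inv_one]
    simp
  have h2 : (-(Complex.I * r)) * (Complex.I * r) = ((r : ℂ)) ^ 2 := by
    linear_combination (-(r : ℂ) ^ 2) * Complex.I_sq
  have h3 : (Complex.I * r) * (-(Complex.I * r)) = ((r : ℂ)) ^ 2 := by
    linear_combination (-(r : ℂ) ^ 2) * Complex.I_sq
  have h4 : (MonoidAlgebra.single 1 (p ^ 2 : ℂ) : Alg) + MonoidAlgebra.single 1 ((r : ℂ) ^ 2) =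
      1 := by
    rw [← MonoidAlgebra.single_add, h1]; rfl
  refine ⟨?_, ?_⟩
  · rw [e, lin, lin, add_mul, mul_add, mul_add]
    simp only [MonoidAlgebra.single_mul_single, one_mul, mul_one, hg, h2]
    have h5 : (MonoidAlgebra.single g ((p : ℂ) * (Complex.I * r)) : Alg) +
        MonoidAlgebra.single g (-(Complex.I * r) * p) = 0 := by
      rw [← MonoidAlgebra.single_add, show (p : ℂ) * (Complex.I * r) + -(Complex.I * r) * p = 0 by ring,
        MonoidAlgebra.single_zero]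
    calc _ = ((MonoidAlgebra.single 1 (p ^ 2 : ℂ) : Alg) + MonoidAlgebra.single 1 ((r : ℂ) ^ 2)) +
        ((MonoidAlgebra.single g ((p : ℂ) * (Complex.I * r)) : Alg) +
        MonoidAlgebra.single g (-(Complex.I * r) * p)) := by
          simp only [pow_two]; abel
      _ = 1 := by rw [h4, h5, add_zero]
  · rw [e, lin, lin, add_mul, mul_add, mul_add]
    simp only [MonoidAlgebra.single_mul_single, one_mul, mul_one, hg, h3]
    have h5 : (MonoidAlgebra.single g ((p : ℂ) * -(Complex.I * r)) : Alg) +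
        MonoidAlgebra.single g (Complex.I * r * p) = 0 := by
      rw [← MonoidAlgebra.single_add, show (p : ℂ) * -(Complex.I * r) + Complex.I * r * p = 0 by ring,
        MonoidAlgebra.single_zero]
    calc _ = ((MonoidAlgebra.single 1 (p ^ 2 : ℂ) : Alg) + MonoidAlgebra.single 1 ((r : ℂ) ^ 2)) +
        ((MonoidAlgebra.single g ((p : ℂ) * -(Complex.I * r)) : Alg) +
        MonoidAlgebra.single g (Complex.I * r * p)) := by
          simp only [pow_two]; abel
      _ = 1 := by rw [h4, h5, add_zero]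

theorem nsq_lin_sub (p q : ℂ) {g h : Equiv.Perm ℕ} (hgh : g ≠ h) :
    nsq (lin p q g - lin p q h) = 2 * ‖q‖ ^ 2 := by
  have e : lin p q g - lin p q h =
      (MonoidAlgebra.single g q : Alg) + MonoidAlgebra.single h (-q) := by
    rw [lin, lin, MonoidAlgebra.single_neg]; abel
  rw [e, nsq]
  have h1 : ((MonoidAlgebra.single g q : Alg) + MonoidAlgebra.single h (-q)).coeff =
      Finsupp.single g q + Finsupp.single h (-q) := rfl
  rw [h1]
  by_cases hq : q = 0
  · subst hq; simp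
  rw [Finsupp.sum_add_index_of_disjoint]
  · rw [Finsupp.sum_single_index (by simp), Finsupp.sum_single_index (by simp), norm_neg]
    ring
  · rw [Finsupp.support_single_ne_zero _ hq, Finsupp.support_single_ne_zero _ (neg_ne_zero.mpr hq)]
    simpa using hgh

/-- The transpositions `s_j` and `t_j`. -/
def sj (j : ℕ) : Equiv.Perm ℕ := Equiv.swap (3 * j) (3 * j + 1)

/-- The transpositions `s_j` and `t_j`. -/
def tj (j : ℕ) : Equiv.Perm ℕ := Equiv.swap (3 * j + 1) (3 * j + 2)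

theorem tj_sq (j : ℕ) : tj j * tj j = 1 := Equiv.swap_mul_self _ _

theorem conj_tj_of_ne {i j : ℕ} (h : i ≠ j) : sj j * tj i * (sj j)⁻¹ = tj i := by
  rw [tj, ← Equiv.swap_apply_apply, sj, Equiv.swap_apply_of_ne_of_ne (by omega) (by omega),
    Equiv.swap_apply_of_ne_of_ne (by omega) (by omega)]

theorem conj_tj_ne (j : ℕ) : sj j * tj j * (sj j)⁻¹ ≠ tj j := by
  intro h
  have h1 := congrArg (fun e : Equiv.Perm ℕ => e (3 * j + 1)) h
  simp [sj, tj, Equiv.swap_apply_def] at h1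

/-- `r_k = 2 m / (m² + 1)`, `m = k + 2` -/
noncomputable def rk (k : ℕ) : ℝ := 2 * ((k : ℝ) + 2) / (((k : ℝ) + 2) ^ 2 + 1)

/-- `p_k = (m² - 1) / (m² + 1)`, `m = k + 2` -/
noncomputable def pk (k : ℕ) : ℝ := (((k : ℝ) + 2) ^ 2 - 1) / (((k : ℝ) + 2) ^ 2 + 1)

theorem pk_rk (k : ℕ) : pk k ^ 2 + rk k ^ 2 = 1 := by
  rw [pk, rk]
  have : ((k : ℝ) + 2) ^ 2 + 1 ≠ 0 := by positivity
  field_simp
  ring

/-- The unitary `w_{k,j}`. -/
noncomputable def wkj (k j : ℕ) : Alg := lin (pk k) (Complex.I * rk k) (tj j)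

theorem isU_wkj (k j : ℕ) : IsU (wkj k j) := isU_lin (pk_rk k) (tj_sq j)

theorem exists_wkj (k j : ℕ) : ∃ n, dec n = wkj k j := by
  obtain ⟨n, hn⟩ := exists_dec [([], ((k : ℤ) + 2) ^ 2 - 1, 0, (k + 2) ^ 2),
    ([(3 * j + 1, 3 * j + 2)], 0, 2 * ((k : ℤ) + 2), (k + 2) ^ 2)]
  refine ⟨n, ?_⟩
  rw [hn, dlist_cons, dlist_cons, dlist_nil, add_zero, mono, mono, wkj, lin, pk, rk, tj]
  congr 2
  · push_cast; ring
  · push_cast; ring

/-- The product of the unitaries. -/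
noncomputable def Vn (c : ℕ → ℕ) : ℕ → Alg
  | 0 => wkj (c 0) 0
  | n + 1 => Vn c n * wkj (c (n + 1)) (n + 1)

theorem isU_Vn (c : ℕ → ℕ) (n : ℕ) : IsU (Vn c n) := by
  induction n with
  | zero => exact isU_wkj _ _
  | succ n ih => exact ih.mul (isU_wkj _ _)

theorem exists_Vn (c : ℕ → ℕ) (n : ℕ) : ∃ k, dec k = Vn c n := by
  obtain ⟨f, hf⟩ := exists_mulc
  induction n with
  | zero => exact exists_wkj _ _
  | succ n ih =>
    obtain ⟨k, hk⟩ := ih
    obtain ⟨l, hl⟩ := exists_wkj (c (n + 1)) (n + 1)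
    exact ⟨f k l, by rw [hf, hk, hl]; rfl⟩

theorem conj_mul (u a b : Alg) (hu : IsU u) :
    u * (a * b) * adj u = (u * a * adj u) * (u * b * adj u) := by
  calc u * (a * b) * adj u = u * a * 1 * b * adj u := by noncomm_ring
    _ = u * a * (adj u * u) * b * adj u := by rw [hu.1]
    _ = _ := by noncomm_ring

theorem conj_wkj_of_ne (k : ℕ) {i j : ℕ} (h : i ≠ j) :
    gel (sj j) * wkj k i * adj (gel (sj j)) = wkj k i := by
  rw [wkj, conj_lin, conj_tj_of_ne h]

theorem conj_Vn_of_lt (c : ℕ → ℕ) {n j : ℕ} (h : n < j) :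
    gel (sj j) * Vn c n * adj (gel (sj j)) = Vn c n := by
  induction n with
  | zero => exact conj_wkj_of_ne _ (by omega)
  | succ n ih =>
    rw [Vn, conj_mul _ _ _ (isU_gel _), ih (by omega), conj_wkj_of_ne _ (by omega)]

theorem nsq_conj_wkj (k j : ℕ) :
    nsq (gel (sj j) * wkj k j * adj (gel (sj j)) - wkj k j) = 2 * rk k ^ 2 := by
  rw [wkj, conj_lin, nsq_lin_sub _ _ (conj_tj_ne j)]
  simp

theorem nsq_conj_Vn (c : ℕ → ℕ) (n : ℕ) : ∀ j ≤ n,
    nsq (gel (sj j) * Vn c n * adj (gel (sj j)) - Vn c n) = 2 * rk (c j) ^ 2 := by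
  induction n with
  | zero =>
    intro j hj
    obtain rfl : j = 0 := by omega
    exact nsq_conj_wkj _ _
  | succ n ih =>
    intro j hj
    rw [Vn, conj_mul _ _ _ (isU_gel _)]
    rcases Nat.lt_or_ge n j with h | h
    · obtain rfl : j = n + 1 := by omega
      rw [conj_Vn_of_lt c h, ← mul_sub, (isU_Vn c n).nsq_mul_left, nsq_conj_wkj]
    · rw [conj_wkj_of_ne _ (by omega : n + 1 ≠ j), ← sub_mul, (isU_wkj _ _).nsq_mul_right, ih j h]

/-- unitaries `u_j` and `v_{n,c}` with `‖[u_j, v_{n,c}] - 1‖₂² = δ (c j)` for `j ≤ n` -/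
theorem exists_unitaries : ∃ (u : ℕ → ℕ) (v : ℕ → (ℕ → ℕ) → ℕ) (δ : ℕ → ℝ),
    (∀ j, IsU (dec (u j))) ∧ (∀ n c, IsU (dec (v n c))) ∧ (∀ i, 0 < δ i) ∧
    Tendsto δ atTop (nhds 0) ∧
    ∀ n c j, j ≤ n → nsq (cmt (dec (u j)) (dec (v n c)) - 1) = δ (c j) := by
  have hu : ∀ j, ∃ k, dec k = gel (sj j) := by
    intro j
    obtain ⟨n, hn⟩ := exists_dec [([(3 * j, 3 * j + 1)], 1, 0, 0)]
    refine ⟨n, ?_⟩
    rw [hn, dlist_cons, dlist_nil, add_zero, mono, gel, sj]
    congr 1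
    simp
  choose u hu using hu
  have hv : ∀ n c, ∃ k, dec k = Vn c n := fun n c => exists_Vn c n
  choose v hv using hv
  refine ⟨u, v, fun k => 2 * rk k ^ 2, fun j => ?_, fun n c => ?_, fun i => ?_, ?_, ?_⟩
  · rw [hu]; exact isU_gel _
  · rw [hv]; exact isU_Vn _ _
  · have : 0 < rk i := by rw [rk]; positivity
    positivity
  · have h1 : Tendsto rk atTop (nhds 0) := by
      have h2 : Tendsto (fun k : ℕ => 2 / ((k : ℝ) + 2)) atTop (nhds 0) := by
        apply Tendsto.const_div_atTop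
        exact tendsto_atTop_add_const_right _ _ tendsto_natCast_atTop_atTop
      refine squeeze_zero (fun k => by rw [rk]; positivity) (fun k => ?_) h2
      rw [rk, div_le_div_iff₀ (by positivity) (by positivity)]
      nlinarith [sq_nonneg ((k : ℝ) + 2)]
    have h3 := (h1.pow 2).const_mul 2
    simpa using h3
  · intro n c j hj
    simp only
    rw [hu, hv]
    have hV := isU_Vn c n
    have h1 : cmt (gel (sj j)) (Vn c n) - 1 =
        (gel (sj j) * Vn c n * adj (gel (sj j)) - Vn c n) * adj (Vn c n) := by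
      rw [cmt, sub_mul, hV.2]
    rw [h1, hV.adj'.nsq_mul_right, nsq_conj_Vn c n j hj]

end Pool.Agent.Helper89.FV
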